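import Pool.Agent.KS6_21.SB.Main

/-!
# All generating sets and all bases of the SC-theory of a finite abelian group

The library proves that the lengths of the bases of the SC-theory of the variety generated by a
finite abelian group are exactly `1` and `2` (only `1` for the trivial group, when nullary operation
symbols are not allowed), that the dimension is `2`, and that every generating set contains a basis.
Here all generating sets and all bases are described: the SC-theory is generated by two prime
conditions, the existence of a constant and a parametric affine condition (for every value of a
parameter there is an operation which is the `(n+1)`-ary sum of an abelian group of exponent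
dividing `n`). Bases with one element are unique up to equivalence, and there are infinitely many
pairwise inequivalent bases with two elements, containing a copy of the divisibility order.
-/

set_option autoImplicit false

namespace Pool.Agent.Results.MP_001d24_al.AllBases

open Pool.Agent.Helper470.DimT Pool.Agent.Y806.DM Pool.Agent.KS6_21.SB

/-- Let `A` be a finite abelian group, or an abelian group of finite exponent, and `VG A` the
variety of groups generated by `A`. The SC-theory of `VG A`, with nullary operation symbols
allowed, or without nullary symbols if `A` is nontrivial, is as described in `TwoPrimes`: it is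
generated by two prime conditions, all generating sets and bases are described by them, bases with
one element are unique up to equivalence, and there are infinitely many pairwise inequivalent bases
with two elements. The lengths of the bases are `1` and `2` and the dimension is `2`. Without
nullary symbols and for the trivial group the SC-theory is as described in `OnePrime`, all bases
have length one and the dimension is `1`. -/
theorem result (A : Type) [CommGroup A] (h : Finite A ∨ Monoid.exponent A ≠ 0) :
    (TwoPrimes (SC anyArity (VG A)) ∧
      {k : ℕ∞ | ∃ B : Set Cond, IsBasis B (SC anyArity (VG A)) ∧ B.encard = k} = {1, 2} ∧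
      dim anyArity (VG A) = 2) ∧
    (Nontrivial A → TwoPrimes (SC posArity (VG A)) ∧
      {k : ℕ∞ | ∃ B : Set Cond, IsBasis B (SC posArity (VG A)) ∧ B.encard = k} = {1, 2} ∧
      dim posArity (VG A) = 2) ∧
    (Subsingleton A → OnePrime (SC posArity (VG A)) ∧
      {k : ℕ∞ | ∃ B : Set Cond, IsBasis B (SC posArity (VG A)) ∧ B.encard = k} = {1} ∧
      dim posArity (VG A) = 1) := by
  have h0 : Monoid.exponent A ≠ 0 := by
    rcases h with h | h
    · exact Monoid.exponent_ne_zero_of_finite
    · exact h
  refine ⟨⟨?_, ?_, ?_⟩, fun hA => ?_, fun hA => ?_⟩
  · have e1 := twoPrimes (k0 := 0) (A := A) (Nat.zero_le 1) h0 (Or.inl rfl)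
    rw [adm_zero] at e1
    exact e1
  · have e1 := lengths_eq (k0 := 0) (A := A) (Nat.zero_le 1) h0 (Or.inl rfl)
    rw [adm_zero] at e1
    exact e1
  · have e2 := dim_eq (k0 := 0) (A := A) (Nat.zero_le 1) h0 (Or.inl rfl)
    rw [adm_zero] at e2
    exact e2
  · have hne : Monoid.exponent A ≠ 1 := fun h => not_subsingleton A (Monoid.exp_eq_one_iff.1 h)
    exact ⟨twoPrimes (k0 := 1) le_rfl h0 (Or.inr hne),
      lengths_eq (k0 := 1) le_rfl h0 (Or.inr hne), dim_eq (k0 := 1) le_rfl h0 (Or.inr hne)⟩
  · have hA1 : Monoid.exponent A = 1 := Monoid.exp_eq_one_iff.2 hA
    exact ⟨onePrime hA1, lengths_triv hA1, dim_triv hA1⟩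

end Pool.Agent.Results.MP_001d24_al.AllBases
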